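import Mathlib

/-!
Powers of regular sequences in Noetherian local rings.
-/

set_option autoImplicit false

open IsLocalRing RingTheory.Sequence

namespace Pool.Agent.Helper49.NC

universe u

/-- Elementwise form of regularity modulo an ideal generated by a list. -/
theorem isWeaklyRegular_append_singleton_iff {A : Type u} [CommRing A] (rs : List A) (x : A) :
    IsWeaklyRegular A (rs ++ [x]) ↔
      IsWeaklyRegular A rs ∧ ∀ y, x * y ∈ Ideal.ofList rs → y ∈ Ideal.ofList rs := by
  rw [isWeaklyRegular_append_iff, isWeaklyRegular_singleton_iff]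
  refine and_congr_right fun _ => ?_
  rw [isSMulRegular_quotient_iff_mem_of_smul_mem]
  simp only [smul_eq_mul, Ideal.mul_top]

/-- One element of a regular sequence may be replaced by a power. -/
theorem isWeaklyRegular_pow_last {A : Type u} [CommRing A] (rs : List A) (x : A) (k : ℕ)
    (h : IsWeaklyRegular A (rs ++ [x])) : IsWeaklyRegular A (rs ++ [x ^ k]) := by
  rw [isWeaklyRegular_append_singleton_iff] at h ⊢
  refine ⟨h.1, ?_⟩
  induction k with
  | zero => intro y hy; simpa using hy
  | succ k ih =>
    intro y hy
    apply ih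
    apply h.2
    rw [pow_succ', mul_assoc] at hy
    exact hy

theorem isWeaklyRegular_map_pow {A : Type u} [CommRing A] [IsLocalRing A] [IsNoetherianRing A]
    (k : ℕ) (hk : k ≠ 0) (g b : List A) (h : IsWeaklyRegular A (g ++ b))
    (hm : ∀ x ∈ g ++ b, x ∈ maximalIdeal A) :
    IsWeaklyRegular A (g.map (· ^ k) ++ b) := by
  induction g generalizing b with
  | nil => simpa using h
  | cons x g ih =>
    -- move x to the end, take power, move in front of b
    have hperm : List.Perm (x :: g ++ b) ((g ++ b) ++ [x]) := by
      simpa using (List.perm_append_singleton x (g ++ b)).symm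
    have h1 : IsWeaklyRegular A ((g ++ b) ++ [x]) :=
      IsLocalRing.isWeaklyRegular_of_perm_of_subset_maximalIdeal h hperm hm
    have h2 := isWeaklyRegular_pow_last (g ++ b) x k h1
    have hm2 : ∀ y ∈ (g ++ b) ++ [x ^ k], y ∈ maximalIdeal A := by
      intro y hy
      rcases List.mem_append.mp hy with hy | hy
      · exact hm y (by simpa using Or.inr (List.mem_append.mp hy))
      · rw [List.mem_singleton] at hy
        rw [hy]
        exact Ideal.pow_mem_of_mem _ (hm x (by simp)) k (Nat.pos_of_ne_zero hk)
    have hperm2 : List.Perm ((g ++ b) ++ [x ^ k]) (g ++ (x ^ k :: b)) := by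
      rw [List.append_assoc]
      exact List.Perm.append_left g (List.perm_append_singleton _ _)
    have h3 : IsWeaklyRegular A (g ++ (x ^ k :: b)) :=
      IsLocalRing.isWeaklyRegular_of_perm_of_subset_maximalIdeal h2 hperm2 hm2
    have h4 := ih (x ^ k :: b) h3 (fun y hy => hm2 y (hperm2.mem_iff.mpr hy))
    have hperm3 : List.Perm (g.map (· ^ k) ++ (x ^ k :: b)) ((x :: g).map (· ^ k) ++ b) := by
      simpa using List.perm_middle
    refine IsLocalRing.isWeaklyRegular_of_perm_of_subset_maximalIdeal h4 hperm3 ?_
    intro y hy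
    rcases List.mem_append.mp hy with hy | hy
    · obtain ⟨w, hw, rfl⟩ := List.mem_map.mp hy
      exact Ideal.pow_mem_of_mem _ (hm w (by simp [hw])) k (Nat.pos_of_ne_zero hk)
    · exact hm2 y (hperm2.mem_iff.mpr (by simp only [List.mem_append]; exact Or.inr hy))

/-- Colon property, one list of powers at a time. -/
theorem mem_of_prod_pow_mul_mem_aux {A : Type u} [CommRing A] [IsLocalRing A] [IsNoetherianRing A]
    (n : ℕ) (g b : List A) (hgb : IsWeaklyRegular A (g ++ b))
    (hm : ∀ x ∈ g ++ b, x ∈ maximalIdeal A) (y : A)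
    (hy : y * (g.map (· ^ n)).prod ∈ Ideal.ofList (g.map (· ^ (n + 1)) ++ b)) :
    y ∈ Ideal.ofList (g ++ b) := by
  induction g generalizing b y with
  | nil => simpa using hy
  | cons x g ih =>
    -- J' = (g^{n+1}) + (b); x is a nonzerodivisor mod J'
    have hx : IsWeaklyRegular A ((g.map (· ^ (n + 1)) ++ b) ++ [x]) := by
      have hperm : List.Perm (x :: g ++ b) (g ++ (b ++ [x])) := by
        rw [← List.append_assoc]
        simpa using (List.perm_append_singleton x (g ++ b)).symm
      have h1 : IsWeaklyRegular A (g ++ (b ++ [x])) :=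
        IsLocalRing.isWeaklyRegular_of_perm_of_subset_maximalIdeal hgb hperm hm
      have h2 := isWeaklyRegular_map_pow (n + 1) (Nat.succ_ne_zero n) g (b ++ [x]) h1
        (fun z hz => hm z (hperm.mem_iff.mpr hz))
      rwa [← List.append_assoc] at h2
    have hxn := isWeaklyRegular_pow_last _ x n hx
    rw [isWeaklyRegular_append_singleton_iff] at hxn
    -- decompose membership
    rw [List.map_cons, List.cons_append, Ideal.ofList_cons, Ideal.mem_span_singleton_sup] at hy
    obtain ⟨c, j, hj, hcj⟩ := hy
    have h3 : x ^ n * (y * (g.map (· ^ n)).prod - c * x) ∈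
        Ideal.ofList (g.map (· ^ (n + 1)) ++ b) := by
      have : x ^ n * (y * (g.map (· ^ n)).prod - c * x) = j := by
        have h4 : (((x :: g).map (· ^ n)).prod : A) = x ^ n * (g.map (· ^ n)).prod := by
          simp
        rw [List.map_cons, List.prod_cons] at hcj
        linear_combination -hcj
      rw [this]
      exact hj
    have h5 := hxn.2 _ h3
    have h6 : y * (g.map (· ^ n)).prod ∈ Ideal.ofList (g.map (· ^ (n + 1)) ++ (x :: b)) := by
      have h7 : y * (g.map (· ^ n)).prod = c * x + (y * (g.map (· ^ n)).prod - c * x) := by ring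
      rw [h7]
      refine Ideal.add_mem _ ?_ ?_
      · apply Ideal.mul_mem_left
        apply Ideal.subset_span
        simp
      · refine (Ideal.span_mono ?_ : Ideal.ofList (g.map (· ^ (n + 1)) ++ b) ≤ _) h5
        intro z hz
        simp only [Set.mem_ofPred_eq, List.mem_append, List.mem_cons] at hz ⊢
        tauto
    have hperm : List.Perm (x :: g ++ b) (g ++ (x :: b)) := by
      simpa using List.perm_middle.symm
    have h8 := ih (x :: b)
      (IsLocalRing.isWeaklyRegular_of_perm_of_subset_maximalIdeal hgb hperm hm)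
      (fun z hz => hm z (hperm.mem_iff.mpr hz)) y h6
    refine (Ideal.span_mono ?_ : Ideal.ofList (g ++ (x :: b)) ≤ _) h8
    intro z hz
    exact hperm.mem_iff.mpr hz

end Pool.Agent.Helper49.NC
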