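import Pool.Agent.Helper49.NC.SysB
import Pool.Agent.Helper49.NC.SysC

/-!
Systems of parameters in Cohen-Macaulay local rings (module A of the nearly commuting matrices
project).
-/

set_option autoImplicit false

namespace Pool.Agent.Helper49.NC

open IsLocalRing RingTheory.Sequence

universe u

theorem mem_maximalIdeal_of_isRegular {L : Type u} [CommRing L] [IsLocalRing L]
    {rs : List L} (h : IsRegular L rs) : ∀ r ∈ rs, r ∈ maximalIdeal L := by
  intro r hr
  rw [mem_maximalIdeal, mem_nonunits_iff]
  intro hu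
  apply h.2
  have : Ideal.ofList rs = ⊤ := Ideal.eq_top_of_isUnit_mem _ (Ideal.subset_span hr) hu
  rw [this]
  simp

theorem supportDim_quot_ofList {L : Type u} [CommRing L] (gs : List L) :
    Module.supportDim L (L ⧸ (Ideal.ofList gs • ⊤ : Submodule L L)) =
      ringKrullDim (L ⧸ Ideal.ofList gs) := by
  have eq : Ideal.ofList gs = Ideal.ofList gs • (⊤ : Ideal L) := by simp
  rw [ringKrullDim_eq_of_ringEquiv (Ideal.quotientEquivAlgOfEq L eq).toRingEquiv,
    ← Module.supportDim_quotient_eq_ringKrullDim]

open Pointwise in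
/-- A2 iterated. -/
theorem exists_regular_quot_list {L : Type u} [CommRing L] [IsLocalRing L] [IsNoetherianRing L]
    (us : List L) :
    ∀ {M : Type u} [AddCommGroup M] [Module L M] [Module.Finite L M] (k : ℕ)
    (_ : ∃ rs : List L, rs.length = k + us.length ∧ (∀ r ∈ rs, r ∈ maximalIdeal L) ∧
      IsRegular M rs)
    (_ : ∀ r ∈ us, r ∈ maximalIdeal L) (_ : IsWeaklyRegular M us),
    ∃ rs : List L, rs.length = k ∧ (∀ r ∈ rs, r ∈ maximalIdeal L) ∧
      IsRegular (M ⧸ (Ideal.ofList us • ⊤ : Submodule L M)) rs := by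
  induction us with
  | nil =>
    intro M _ _ _ k h _ _
    obtain ⟨rs, h1, h2, h3⟩ := h
    refine ⟨rs, by simpa using h1, h2, ?_⟩
    have e : M ≃ₗ[L] (M ⧸ (Ideal.ofList ([] : List L) • ⊤ : Submodule L M)) :=
      (Submodule.quotEquivOfEqBot _ (by rw [Ideal.ofList_nil, Submodule.bot_smul])).symm
    exact (e.isRegular_congr rs).mp h3
  | cons x us ih =>
    intro M _ _ _ k h hm hreg
    rw [isWeaklyRegular_cons_iff] at hreg
    have h1 := exists_regular_quot (M := M) (k + us.length) (by
      obtain ⟨rs, h1, h2⟩ := h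
      exact ⟨rs, by rw [h1, List.length_cons, add_assoc], h2⟩) x (hm x (by simp)) hreg.1
    obtain ⟨rs, h2, h3, h4⟩ := ih (M := QuotSMulTop x M) k h1 (fun r hr => hm r (by simp [hr]))
      hreg.2
    exact ⟨rs, h2, h3, ((Submodule.quotOfListConsSMulTopEquivQuotSMulTopInner M x
      us).isRegular_congr rs).mpr h4⟩

theorem arith_zero {a : WithBot ℕ∞} {n : ℕ} (h : a + n = n) : a = 0 := by
  induction a with
  | bot => simp at h
  | coe a =>
    induction a with
    | top =>
      have : ((⊤ : ℕ∞) : WithBot ℕ∞) + (n : WithBot ℕ∞) = ((⊤ : ℕ∞) : WithBot ℕ∞) := by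
        exact_mod_cast (top_add (n : ℕ∞))
      rw [this] at h
      have h3 : (⊤ : ℕ∞) = (n : ℕ∞) := by exact_mod_cast h
      exact absurd h3.symm (by simp)
    | coe a =>
      have h3 : a + n = n := by exact_mod_cast h
      have : a = 0 := by omega
      rw [this]
      rfl

theorem ofList_map_univ {L : Type u} [CommRing L] {ι : Type*} [Fintype ι] (u : ι → L) :
    Ideal.ofList (Finset.univ.toList.map u) = Ideal.span (Set.range u) := by
  unfold Ideal.ofList
  congr 1
  ext x
  simp

theorem ofList_ofFn {L : Type u} [CommRing L] {d : ℕ} (v : Fin d → L) :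
    Ideal.ofList (List.ofFn v) = Ideal.span (Set.range v) := by
  unfold Ideal.ofList
  congr 1
  ext x
  simp [List.mem_ofFn]

end Pool.Agent.Helper49.NC

namespace Pool.Agent.Helper10.NC

open IsLocalRing RingTheory.Sequence Pool.Agent.Helper49.NC

/-- In a Noetherian local ring with a regular sequence of length `N`, a sequence `gs` with
`dim L/(gs) + length gs ≤ N` is regular. -/
theorem isRegular_of_dim {L : Type*} [CommRing L] [IsLocalRing L] [IsNoetherianRing L]
    (rs : List L) (hreg : IsRegular L rs)
    (gs : List L) (hgs : ∀ g ∈ gs, g ∈ maximalIdeal L)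
    (hdim : ringKrullDim (L ⧸ Ideal.ofList gs) + gs.length ≤ rs.length) :
    IsRegular L gs := by
  refine isRegular_of_supportDim gs (M := L) rs.length
    ⟨rs, rfl, mem_maximalIdeal_of_isRegular hreg, hreg⟩ hgs ?_
  rw [supportDim_quot_ofList]
  exact hdim

/-- Extension of `u`, `t` to a system of parameters with the two cancellation properties. -/
theorem exists_system {L : Type*} [CommRing L] [IsLocalRing L] [IsNoetherianRing L]
    (rs : List L) (hreg : IsRegular L rs) (hL : ringKrullDim L = rs.length)
    {ι : Type*} [Fintype ι] (u : ι → L) (hu : ∀ i, u i ∈ maximalIdeal L)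
    (hdim : ringKrullDim (L ⧸ Ideal.span (Set.range u)) + Fintype.card ι ≤ rs.length)
    (hcN : Fintype.card ι < rs.length)
    (t : L) (ht : t ∈ maximalIdeal L)
    (htm : ∀ q ∈ (Ideal.span (Set.range u)).minimalPrimes, t ∉ q) :
    ∃ (d : ℕ) (v : Fin d → L), (∀ k, v k ∈ maximalIdeal L) ∧
      (∃ k : ℕ, maximalIdeal L ^ k ≤
        Ideal.span (Set.range u) ⊔ Ideal.span {t} ⊔ Ideal.span (Set.range v)) ∧
      (∀ b : ℕ, 1 ≤ b → ∀ x : L,
        t * x ∈ Ideal.span (Set.range u) ⊔ Ideal.span (Set.range fun k => v k ^ b) →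
        x ∈ Ideal.span (Set.range u) ⊔ Ideal.span (Set.range fun k => v k ^ b)) ∧
      (∀ x : L, (∏ i, u i) * x ∈ Ideal.span (Set.range fun i => u i ^ 2) ⊔
          Ideal.span {t ^ 2} ⊔ Ideal.span (Set.range fun k => v k ^ 2) →
        x ∈ Ideal.span (Set.range u) ⊔ Ideal.span {t ^ 2} ⊔
          Ideal.span (Set.range fun k => v k ^ 2)) := by
  classical
  obtain ⟨us, hus⟩ : ∃ us : List L, us = Finset.univ.toList.map u := ⟨_, rfl⟩
  have husI : Ideal.ofList us = Ideal.span (Set.range u) := by rw [hus, ofList_map_univ]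
  have husl : us.length = Fintype.card ι := by rw [hus]; simp
  have husm : ∀ r ∈ us, r ∈ maximalIdeal L := by
    intro r hr
    rw [hus, List.mem_map] at hr
    obtain ⟨i, -, rfl⟩ := hr
    exact hu i
  rw [← husI, ← husl] at hdim
  have h1 : IsRegular L us := isRegular_of_dim rs hreg us husm hdim
  have hrsm := mem_maximalIdeal_of_isRegular hreg
  -- M = L/(u) has a regular sequence of length N - c
  obtain ⟨ws, hw1, hw2, hw3⟩ := exists_regular_quot_list us (M := L) (rs.length - us.length)
    ⟨rs, by omega, hrsm, hreg⟩ husm h1.1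
  -- t is regular mod (u)
  have htreg : IsWeaklyRegular L (us ++ [t]) := by
    rw [isWeaklyRegular_append_singleton_iff]
    refine ⟨h1.1, ?_⟩
    by_contra hcon
    push Not at hcon
    obtain ⟨y, hy1, hy2⟩ := hcon
    obtain ⟨p, hp, hle⟩ := exists_le_isAssociatedPrime_of_isNoetherianRing L
      (Submodule.Quotient.mk y : L ⧸ (Ideal.ofList us • ⊤ : Submodule L L)) (by
        rw [Ne, Submodule.Quotient.mk_eq_zero]
        simpa using hy2)
    have htp : t ∈ p := by
      apply hle
      rw [Submodule.mem_colon_singleton, Submodule.mem_bot, ← Submodule.Quotient.mk_smul,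
        Submodule.Quotient.mk_eq_zero]
      simpa using hy1
    have h2 := length_le_dim_of_isAssociatedPrime ws hw3 hw2 p hp
    have hprime := hp.isPrime
    have hup : Ideal.ofList us ≤ p := by
      intro a ha
      obtain ⟨-, w, hw⟩ := isAssociatedPrime_iff.mp hp
      rw [hw, Submodule.mem_colon_singleton, Submodule.mem_bot]
      obtain ⟨w, rfl⟩ := Submodule.Quotient.mk_surjective _ w
      rw [← Submodule.Quotient.mk_smul, Submodule.Quotient.mk_eq_zero]
      exact Submodule.smul_mem_smul ha trivial
    obtain ⟨q, hq, hqp⟩ := Ideal.exists_minimalPrimes_le hup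
    rw [husI] at hq
    have htq := htm q hq
    have hqprime := hq.1.1
    have h3 := dim_succ_le_of_lt q p hqp t htp htq
    have h4 : ringKrullDim (L ⧸ q) ≤ ringKrullDim (L ⧸ Ideal.ofList us) := by
      rw [husI]
      exact ringKrullDim_le_of_surjective (Ideal.Quotient.factor hq.1.2)
        (Ideal.Quotient.factor_surjective hq.1.2)
    rw [hw1] at h2
    have h5 : ((rs.length - us.length : ℕ) : WithBot ℕ∞) + 1 ≤
        ringKrullDim (L ⧸ Ideal.ofList us) :=
      (add_le_add_left h2 1).trans (h3.trans h4)
    have h6 : ((rs.length - us.length : ℕ) : WithBot ℕ∞) + 1 + us.length ≤ rs.length :=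
      (add_le_add_left h5 _).trans hdim
    have h7 : rs.length - us.length + 1 + us.length ≤ rs.length := by exact_mod_cast h6
    omega
  have htm' : ∀ r ∈ us ++ [t], r ∈ maximalIdeal L := by
    intro r hr
    rcases List.mem_append.mp hr with hr | hr
    · exact husm r hr
    · rw [List.mem_singleton] at hr
      exact hr ▸ ht
  -- extension
  obtain ⟨vs, hv1, hv2, hv3⟩ := exists_regular_quot_list (us ++ [t]) (M := L)
    (rs.length - us.length - 1) ⟨rs, by simp; omega, hrsm, hreg⟩ htm' htreg
  have hall : IsWeaklyRegular L ((us ++ [t]) ++ vs) := by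
    rw [isWeaklyRegular_append_iff]
    exact ⟨htreg, hv3.1⟩
  have hallm : ∀ r ∈ (us ++ [t]) ++ vs, r ∈ maximalIdeal L := by
    intro r hr
    rcases List.mem_append.mp hr with hr | hr
    · exact htm' r hr
    · exact hv2 r hr
  have hallr : IsRegular L ((us ++ [t]) ++ vs) :=
    RingTheory.Sequence.IsRegular.of_isWeaklyRegular_of_mem_maximalIdeal L hallm hall
  -- the vector v
  have hpow : ∀ b : ℕ, Ideal.ofList (vs.map (· ^ b)) =
      Ideal.span (Set.range fun k => vs.get k ^ b) := by
    intro b
    rw [← ofList_ofFn]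
    congr 1
    apply List.ext_get
    · simp
    · intro n h1 h2
      simp
  have hvsI : Ideal.ofList vs = Ideal.span (Set.range vs.get) := by
    rw [← ofList_ofFn, List.ofFn_get]
  refine ⟨vs.length, vs.get, fun k => hv2 _ (List.get_mem _ _), ?_, ?_, ?_⟩
  · have hd := ringKrullDim_add_length_eq_ringKrullDim_of_isRegular _ hallr
    have hlen : ((us ++ [t]) ++ vs).length = rs.length := by
      simp only [List.length_append, List.length_singleton, hv1]
      omega
    rw [hL, hlen] at hd
    have h0 : ringKrullDim (L ⧸ Ideal.ofList ((us ++ [t]) ++ vs)) = 0 := arith_zero hd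
    rw [← Module.supportDim_quotient_eq_ringKrullDim] at h0
    have h1 := support_of_supportDim_eq_zero L _ h0
    rw [Module.support_eq_zeroLocus, Ideal.annihilator_quotient,
      PrimeSpectrum.zeroLocus_eq_iff] at h1
    have h2 : maximalIdeal L ≤ (Ideal.ofList ((us ++ [t]) ++ vs)).radical := by
      rw [h1]
      exact Ideal.le_radical
    obtain ⟨k, hk⟩ := Ideal.exists_pow_le_of_le_radical_of_fg h2 (IsNoetherian.noetherian _)
    refine ⟨k, hk.trans (le_of_eq ?_)⟩
    rw [Ideal.ofList_append, Ideal.ofList_append, husI, Ideal.ofList_singleton, ← hvsI]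
  · intro b hb x hx
    have hperm : List.Perm ((us ++ [t]) ++ vs) (vs ++ (us ++ [t])) := List.perm_append_comm
    have h1 : IsWeaklyRegular L (vs ++ (us ++ [t])) :=
      IsLocalRing.isWeaklyRegular_of_perm_of_subset_maximalIdeal hall hperm hallm
    have h2 := isWeaklyRegular_map_pow b (by omega) vs (us ++ [t]) h1
      (fun z hz => hallm z (hperm.mem_iff.mpr hz))
    rw [← List.append_assoc, isWeaklyRegular_append_singleton_iff] at h2
    have h3 := h2.2 x (by
      rw [Ideal.ofList_append, husI, hpow, sup_comm]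
      exact hx)
    rw [Ideal.ofList_append, husI, hpow, sup_comm] at h3
    exact h3
  · intro x hx
    have hperm : List.Perm ((us ++ [t]) ++ vs) ((t :: vs) ++ us) := by
      rw [List.append_assoc]
      exact List.perm_append_comm
    have h1 : IsWeaklyRegular L ((t :: vs) ++ us) :=
      IsLocalRing.isWeaklyRegular_of_perm_of_subset_maximalIdeal hall hperm hallm
    have h2 := isWeaklyRegular_map_pow 2 (by omega) (t :: vs) us h1
      (fun z hz => hallm z (hperm.mem_iff.mpr hz))
    have hm2 : ∀ z ∈ (t :: vs).map (· ^ 2) ++ us, z ∈ maximalIdeal L := by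
      intro z hz
      rcases List.mem_append.mp hz with hz | hz
      · obtain ⟨w, hw, rfl⟩ := List.mem_map.mp hz
        exact Ideal.pow_mem_of_mem _ (hallm w (hperm.mem_iff.mpr
          (List.mem_append_left _ hw))) 2 (by omega)
      · exact husm z hz
    have hperm2 : List.Perm ((t :: vs).map (· ^ 2) ++ us) (us ++ (t :: vs).map (· ^ 2)) :=
      List.perm_append_comm
    have h3 : IsWeaklyRegular L (us ++ (t :: vs).map (· ^ 2)) :=
      IsLocalRing.isWeaklyRegular_of_perm_of_subset_maximalIdeal h2 hperm2 hm2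
    have h4 := mem_of_prod_pow_mul_mem_aux 1 us ((t :: vs).map (· ^ 2)) h3
      (fun z hz => hm2 z (hperm2.mem_iff.mpr hz)) x (by
        rw [Ideal.ofList_append, List.map_cons, Ideal.ofList_cons, hpow 2, ← sup_assoc]
        have e1 : Ideal.ofList (us.map (· ^ (1 + 1))) = Ideal.span (Set.range fun i => u i ^ 2) := by
          rw [hus, List.map_map, ofList_map_univ]
          rfl
        have e2 : (us.map (· ^ 1)).prod = ∏ i, u i := by
          rw [hus, List.map_map, Finset.prod_map_toList]
          simp
        rw [e1, e2, mul_comm]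
        exact hx)
    rw [Ideal.ofList_append, List.map_cons, Ideal.ofList_cons, hpow 2, ← sup_assoc, husI] at h4
    exact h4

end Pool.Agent.Helper10.NC
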