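import Mathlib

/-!
Regular sequences and dimension over Noetherian local rings: associated primes of a module
with a long regular sequence have large dimension.
-/

set_option autoImplicit false

namespace Pool.Agent.Helper49.NC

open IsLocalRing RingTheory.Sequence

universe u

open Pointwise in
/-- Nakayama step: if `p` kills a nonzero element of `M` and `x` is `M`-regular in the maximal
ideal, then `p` kills a nonzero element of `M / xM`. -/
theorem exists_killed {L : Type u} [CommRing L] [IsLocalRing L] [IsNoetherianRing L]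
    {M : Type u} [AddCommGroup M] [Module L M] [Module.Finite L M]
    (p : Ideal L) (x : L) (hx : x ∈ maximalIdeal L) (hreg : IsSMulRegular M x)
    (z : M) (hz : z ≠ 0) (hpz : ∀ a ∈ p, a • z = 0) :
    ∃ n : M, (∀ a ∈ p, a • n = 0) ∧ n ∉ x • (⊤ : Submodule L M) := by
  by_contra hcon
  push Not at hcon
  obtain ⟨N, hN⟩ : ∃ N : Submodule L M, ∀ n, n ∈ N ↔ ∀ a ∈ p, a • n = 0 :=
    ⟨Submodule.torsionBySet L M (p : Set L), fun n => by
      rw [Submodule.mem_torsionBySet_iff]
      exact ⟨fun h a ha => h ⟨a, ha⟩, fun h a => h a a.2⟩⟩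
  have hle : N ≤ (maximalIdeal L) • N := by
    intro n hn
    have h1 := hcon n ((hN n).mp hn)
    rw [Submodule.mem_smul_pointwise_iff_exists] at h1
    obtain ⟨w, -, rfl⟩ := h1
    refine Submodule.smul_mem_smul hx ?_
    rw [hN]
    intro a ha
    have h2 := (hN _).mp hn a ha
    rw [smul_comm] at h2
    exact hreg (by simpa using h2)
  have h0 : N = ⊥ := by
    refine Submodule.eq_bot_of_le_smul_of_le_jacobson_bot (maximalIdeal L) N
      (IsNoetherian.noetherian N) hle ?_
    exact (IsLocalRing.jacobson_eq_maximalIdeal ⊥ bot_ne_top).ge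
  have : z ∈ N := (hN z).mpr hpz
  rw [h0, Submodule.mem_bot] at this
  exact hz this

/-- dimension drops along a strict inclusion of primes. -/
theorem dim_succ_le_of_lt {L : Type u} [CommRing L] (p q : Ideal L) [hp : p.IsPrime]
    (hpq : p ≤ q) (x : L) (hxq : x ∈ q) (hxp : x ∉ p) :
    ringKrullDim (L ⧸ q) + 1 ≤ ringKrullDim (L ⧸ p) := by
  have h1 : (Ideal.Quotient.mk p x) ∈ nonZeroDivisors (L ⧸ p) := by
    rw [mem_nonZeroDivisors_iff_ne_zero, Ne, Ideal.Quotient.eq_zero_iff_mem]
    exact hxp
  refine le_trans ?_ (ringKrullDim_quotient_succ_le_of_nonZeroDivisor h1)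
  refine add_le_add_left (ringKrullDim_le_of_surjective
    (Ideal.Quotient.lift (Ideal.span {Ideal.Quotient.mk p x}) (Ideal.Quotient.factor hpq) ?_) ?_) 1
  · intro a ha
    rw [Ideal.mem_span_singleton] at ha
    obtain ⟨b, rfl⟩ := ha
    rw [map_mul]
    have : (Ideal.Quotient.factor hpq) (Ideal.Quotient.mk p x) = 0 := by
      rw [Ideal.Quotient.factor_mk, Ideal.Quotient.eq_zero_iff_mem]
      exact hxq
    rw [this, zero_mul]
  · apply Ideal.Quotient.lift_surjective_of_surjective
    exact Ideal.Quotient.factor_surjective hpq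

open Pointwise in
/-- A1: associated primes of a module with a regular sequence of length `n`. -/
theorem length_le_dim_of_isAssociatedPrime {L : Type u} [CommRing L] [IsLocalRing L]
    [IsNoetherianRing L] (rs : List L) :
    ∀ {M : Type u} [AddCommGroup M] [Module L M] [Module.Finite L M]
    (_ : IsRegular M rs) (_ : ∀ r ∈ rs, r ∈ maximalIdeal L)
    (p : Ideal L) (_ : IsAssociatedPrime p M), (rs.length : WithBot ℕ∞) ≤ ringKrullDim (L ⧸ p) := by
  induction rs with
  | nil =>
    intro M _ _ _ _ _ p hp
    have := hp.isPrime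
    simpa using (ringKrullDim_nonneg_of_nontrivial (R := L ⧸ p))
  | cons x rs ih =>
    intro M _ _ _ hreg hm p hp
    have hprime := hp.isPrime
    rw [isRegular_cons_iff] at hreg
    obtain ⟨-, z, hz⟩ := isAssociatedPrime_iff.mp hp
    have hpz : ∀ a, a ∈ p ↔ a • z = 0 := by
      intro a
      rw [hz, Submodule.mem_colon_singleton, Submodule.mem_bot]
    have hz0 : z ≠ 0 := by
      intro h0
      apply hprime.ne_top
      rw [Ideal.eq_top_iff_one, hpz, h0, smul_zero]
    have hx : x ∈ maximalIdeal L := hm x (by simp)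
    obtain ⟨n, hn1, hn2⟩ := exists_killed p x hx hreg.1 z hz0 (fun a ha => (hpz a).mp ha)
    obtain ⟨q, hq, hle⟩ := exists_le_isAssociatedPrime_of_isNoetherianRing L
      (Submodule.Quotient.mk n : QuotSMulTop x M) (by
        rw [Ne, Submodule.Quotient.mk_eq_zero]; exact hn2)
    have hq1 := ih hreg.2 (fun r hr => hm r (by simp [hr])) q hq
    have hpq : p ≤ q := by
      intro a ha
      apply hle
      rw [Submodule.mem_colon_singleton, Submodule.mem_bot, ← Submodule.Quotient.mk_smul, hn1 a ha,
        Submodule.Quotient.mk_zero]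
    have hxq : x ∈ q := by
      apply hle
      rw [Submodule.mem_colon_singleton, Submodule.mem_bot, ← Submodule.Quotient.mk_smul,
        Submodule.Quotient.mk_eq_zero]
      exact Submodule.smul_mem_pointwise_smul _ _ _ trivial
    have hxp : x ∉ p := by
      intro h
      rw [hpz] at h
      exact hz0 (hreg.1 (by simpa using h))
    have h3 := dim_succ_le_of_lt p q hpq x hxq hxp
    refine le_trans ?_ h3
    rw [List.length_cons]
    push_cast
    exact add_le_add_left hq1 1

end Pool.Agent.Helper49.NC
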