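import Pool.Agent.Helper49.NC.SysA

/-!
Depth drops by one modulo a regular element; a sequence cutting the dimension is regular.
-/

set_option autoImplicit false

namespace Pool.Agent.Helper49.NC

open IsLocalRing RingTheory.Sequence CategoryTheory Abelian

universe u

theorem smul_top_lt_top {L : Type u} [CommRing L] [IsLocalRing L]
    {M : Type u} [AddCommGroup M] [Module L M] [Module.Finite L M] [Nontrivial M] :
    (maximalIdeal L) • (⊤ : Submodule L M) < ⊤ := by
  rw [lt_top_iff_ne_top]
  intro h
  exact (Submodule.top_ne_ideal_smul_of_le_jacobson_annihilator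
    (IsLocalRing.maximalIdeal_le_jacobson (Module.annihilator L M))) h.symm

open Pointwise in
/-- A2: if `M` has a regular sequence of length `n + 1` and `x` is `M`-regular, then `M / xM`
has a regular sequence of length `n`. -/
theorem exists_regular_quot {L : Type u} [CommRing L] [IsLocalRing L] [IsNoetherianRing L]
    {M : Type u} [AddCommGroup M] [Module L M] [Module.Finite L M] (n : ℕ)
    (h : ∃ rs : List L, rs.length = n + 1 ∧ (∀ r ∈ rs, r ∈ maximalIdeal L) ∧ IsRegular M rs)
    (x : L) (hx : x ∈ maximalIdeal L) (hreg : IsSMulRegular M x) :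
    ∃ rs : List L, rs.length = n ∧ (∀ r ∈ rs, r ∈ maximalIdeal L) ∧
      IsRegular (QuotSMulTop x M) rs := by
  have hnt : Nontrivial M := by
    obtain ⟨rs, -, -, h3⟩ := h
    exact h3.nontrivial
  have hlt : (maximalIdeal L) • (⊤ : Submodule L M) < ⊤ := smul_top_lt_top
  have h1 := ((ModuleCat.exists_isRegular_tfae (maximalIdeal L) (n + 1) (ModuleCat.of L M)
    hlt).out 3 0).mp h
  have hntq : Nontrivial (QuotSMulTop x M) := nontrivial_quotSMulTop_of_mem_maximalIdeal M hx
  have hlt' : (maximalIdeal L) • (⊤ : Submodule L (QuotSMulTop x M)) < ⊤ := smul_top_lt_top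
  refine ((ModuleCat.exists_isRegular_tfae (maximalIdeal L) n (ModuleCat.of L (QuotSMulTop x M))
    hlt').out 0 3).mp ?_
  intro N hN1 hN2 hN3 i hi
  have zero1 := AddCommGrpCat.isZero_of_iff_subsingleton.mpr (h1 N hN1 hN2 hN3 i (by omega))
  have zero2 := AddCommGrpCat.isZero_of_iff_subsingleton.mpr (h1 N hN1 hN2 hN3 (i + 1) (by omega))
  exact AddCommGrpCat.subsingleton_of_isZero <| ShortComplex.Exact.isZero_of_both_zeros
    ((Ext.covariant_sequence_exact₃' N
      (IsSMulRegular.smulShortComplex_shortExact (M := ModuleCat.of L M) hreg)) i (i + 1) rfl)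
    (zero1.eq_zero_of_src _) (zero2.eq_zero_of_tgt _)

/-- A4: cutting with `k` elements lowers the dimension by at most `k`. -/
theorem supportDim_le_add_length {L : Type u} [CommRing L] [IsLocalRing L] [IsNoetherianRing L]
    (gs : List L) :
    ∀ {M : Type u} [AddCommGroup M] [Module L M] [Module.Finite L M]
    (_ : ∀ r ∈ gs, r ∈ maximalIdeal L),
    Module.supportDim L M ≤
      Module.supportDim L (M ⧸ (Ideal.ofList gs • ⊤ : Submodule L M)) + gs.length := by
  induction gs with
  | nil =>
    intro M _ _ _ _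
    rw [Ideal.ofList_nil, Submodule.bot_smul]
    simpa using (Module.supportDim_eq_of_equiv (Submodule.quotEquivOfEqBot
      (⊥ : Submodule L M) rfl)).ge
  | cons x gs ih =>
    intro M _ _ _ hm
    have h1 := Module.supportDim_le_supportDim_quotSMulTop_succ (M := M) (hm x (by simp))
    have h2 := ih (M := QuotSMulTop x M) (fun r hr => hm r (by simp [hr]))
    rw [Module.supportDim_eq_of_equiv
      (Submodule.quotOfListConsSMulTopEquivQuotSMulTopInner M x _)]
    refine h1.trans ?_
    refine (add_le_add_left h2 1).trans ?_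
    rw [List.length_cons, add_assoc]
    push_cast
    exact le_rfl

theorem ofList_le {L : Type u} [CommRing L] {gs : List L} {I : Ideal L}
    (h : ∀ r ∈ gs, r ∈ I) : Ideal.ofList gs ≤ I := Ideal.span_le.mpr h

theorem nontrivial_quot {L : Type u} [CommRing L] [IsLocalRing L]
    {M : Type u} [AddCommGroup M] [Module L M] [Module.Finite L M] [Nontrivial M]
    (gs : List L) (hm : ∀ r ∈ gs, r ∈ maximalIdeal L) :
    Nontrivial (M ⧸ (Ideal.ofList gs • ⊤ : Submodule L M)) := by
  rw [Submodule.Quotient.nontrivial_iff]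
  exact (Submodule.top_ne_ideal_smul_of_le_jacobson_annihilator
    ((ofList_le hm).trans (maximalIdeal_le_jacobson _))).symm

/-- arithmetic helper: `n ≤ a + k` and `a + (k + 1) ≤ n` are contradictory. -/
theorem arith_contra {a : WithBot ℕ∞} {n k : ℕ} (h1 : (n : WithBot ℕ∞) ≤ a + k)
    (h2 : a + ((k + 1 : ℕ) : WithBot ℕ∞) ≤ n) : False := by
  induction a with
  | bot => simp at h1
  | coe a =>
    induction a with
    | top =>
      have : ((⊤ : ℕ∞) : WithBot ℕ∞) + ((k + 1 : ℕ) : WithBot ℕ∞) = ((⊤ : ℕ∞) : WithBot ℕ∞) := by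
        exact_mod_cast (top_add ((k + 1 : ℕ) : ℕ∞))
      rw [this] at h2
      have h3 : (⊤ : ℕ∞) ≤ (n : ℕ∞) := by exact_mod_cast h2
      exact absurd h3 (by simp)
    | coe a =>
      have h3 : n ≤ a + k := by exact_mod_cast h1
      have h4 : a + (k + 1) ≤ n := by exact_mod_cast h2
      omega

theorem arith_pred {a : WithBot ℕ∞} {n k : ℕ}
    (h : a + ((k + 1 : ℕ) : WithBot ℕ∞) ≤ ((n + 1 : ℕ) : WithBot ℕ∞)) : a + k ≤ n := by
  induction a with
  | bot => simp
  | coe a =>
    induction a with
    | top =>
      have : ((⊤ : ℕ∞) : WithBot ℕ∞) + ((k + 1 : ℕ) : WithBot ℕ∞) = ((⊤ : ℕ∞) : WithBot ℕ∞) := by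
        exact_mod_cast (top_add ((k + 1 : ℕ) : ℕ∞))
      rw [this] at h
      have h3 : (⊤ : ℕ∞) ≤ ((n + 1 : ℕ) : ℕ∞) := by exact_mod_cast h
      exact absurd h3 (by simp)
    | coe a =>
      have h4 : a + (k + 1) ≤ n + 1 := by exact_mod_cast h
      have : a + k ≤ n := by omega
      exact_mod_cast this

/-- A3: over a Noetherian local ring, if `M` has a regular sequence of length `n` and the
sequence `gs` satisfies `dim M/(gs)M + length gs ≤ n`, then `gs` is `M`-regular. -/
theorem isRegular_of_supportDim {L : Type u} [CommRing L] [IsLocalRing L] [IsNoetherianRing L]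
    (gs : List L) :
    ∀ {M : Type u} [AddCommGroup M] [Module L M] [Module.Finite L M] (n : ℕ)
    (_ : ∃ rs : List L, rs.length = n ∧ (∀ r ∈ rs, r ∈ maximalIdeal L) ∧ IsRegular M rs)
    (_ : ∀ r ∈ gs, r ∈ maximalIdeal L)
    (_ : Module.supportDim L (M ⧸ (Ideal.ofList gs • ⊤ : Submodule L M)) + gs.length ≤ n),
    IsRegular M gs := by
  induction gs with
  | nil =>
    intro M _ _ _ n h _ _
    obtain ⟨rs, -, -, h3⟩ := h
    have := h3.nontrivial
    exact IsRegular.nil L M
  | cons g gs ih =>
    intro M _ _ _ n h hm hdim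
    have hnt : Nontrivial M := by
      obtain ⟨rs, -, -, h3⟩ := h
      exact h3.nontrivial
    have hg : g ∈ maximalIdeal L := hm g (by simp)
    have hreg : IsSMulRegular M g := by
      by_contra hcon
      -- an associated prime containing g
      have h1 : ∃ z : M, z ≠ 0 ∧ g • z = 0 := by
        by_contra h2
        push Not at h2
        apply hcon
        rw [isSMulRegular_iff_right_eq_zero_of_smul]
        intro z hz
        by_contra hz0
        exact h2 z hz0 hz
      obtain ⟨z, hz0, hgz⟩ := h1
      obtain ⟨p, hp, hle⟩ := exists_le_isAssociatedPrime_of_isNoetherianRing L z hz0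
      have hgp : g ∈ p := by
        apply hle
        rw [Submodule.mem_colon_singleton, Submodule.mem_bot]
        exact hgz
      obtain ⟨rs, hl, h2, h3⟩ := h
      have h4 := length_le_dim_of_isAssociatedPrime rs h3 h2 p hp
      rw [hl, ← Module.supportDim_quotient_eq_ringKrullDim] at h4
      have h5 := supportDim_le_add_length gs (M := L ⧸ p) (fun r hr => hm r (by simp [hr]))
      have h6 : Module.supportDim L ((L ⧸ p) ⧸ (Ideal.ofList gs • ⊤ : Submodule L (L ⧸ p))) ≤
          Module.supportDim L (M ⧸ (Ideal.ofList (g :: gs) • ⊤ : Submodule L M)) := by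
        unfold Module.supportDim
        refine Order.krullDim_le_of_strictMono (fun a => ⟨a.1, ?_⟩) (fun {_ _} lt => lt)
        obtain ⟨q, hq⟩ := a
        rw [Module.support_quotient, Module.support_eq_zeroLocus, Ideal.annihilator_quotient] at hq
        rw [Module.support_quotient, Module.support_eq_zeroLocus]
        refine ⟨?_, ?_⟩
        · -- annihilator of M is contained in p
          intro a ha
          refine hq.1 ?_
          obtain ⟨-, w, hw⟩ := isAssociatedPrime_iff.mp hp
          rw [SetLike.mem_coe, hw, Submodule.mem_colon_singleton, Submodule.mem_bot]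
          exact Module.mem_annihilator.mp ha w
        · intro a ha
          have h7 : Ideal.ofList (g :: gs) ≤ q.asIdeal := by
            rw [Ideal.ofList_cons, sup_le_iff, Ideal.span_singleton_le_iff_mem]
            exact ⟨hq.1 hgp, hq.2⟩
          exact h7 ha
      refine arith_contra (n := n) (k := gs.length)
        (a := Module.supportDim L (M ⧸ (Ideal.ofList (g :: gs) • ⊤ : Submodule L M))) ?_ ?_
      · exact h4.trans (h5.trans (add_le_add_left h6 _))
      · exact hdim
    -- now use the induction hypothesis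
    rw [isRegular_cons_iff]
    refine ⟨hreg, ?_⟩
    have hm' : ∀ r ∈ gs, r ∈ maximalIdeal L := fun r hr => hm r (by simp [hr])
    rw [Module.supportDim_eq_of_equiv
      (Submodule.quotOfListConsSMulTopEquivQuotSMulTopInner M g _)] at hdim
    have hntq : Nontrivial (QuotSMulTop g M) := nontrivial_quotSMulTop_of_mem_maximalIdeal M hg
    have hnt2 : Nontrivial (QuotSMulTop g M ⧸
        (Ideal.ofList gs • ⊤ : Submodule L (QuotSMulTop g M))) := nontrivial_quot gs hm'
    obtain ⟨D, hD⟩ : ∃ D, D = Module.supportDim L (QuotSMulTop g M ⧸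
        (Ideal.ofList gs • ⊤ : Submodule L (QuotSMulTop g M))) := ⟨_, rfl⟩
    rw [← hD] at hdim
    have h9 : (0 : WithBot ℕ∞) ≤ D := by
      have := (Module.supportDim_ne_bot_iff_nontrivial L (QuotSMulTop g M ⧸
        (Ideal.ofList gs • ⊤ : Submodule L (QuotSMulTop g M)))).mpr hnt2
      rw [← hD] at this
      obtain ⟨a, ha⟩ := WithBot.ne_bot_iff_exists.mp this
      rw [← ha]
      exact_mod_cast (zero_le : (0 : ℕ∞) ≤ a)
    obtain ⟨m, rfl⟩ : ∃ m, n = m + 1 := by
      have h10 : ((gs.length + 1 : ℕ) : WithBot ℕ∞) ≤ n := by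
        refine le_trans ?_ hdim
        rw [List.length_cons]
        exact le_add_of_nonneg_left h9
      have h11 : gs.length + 1 ≤ n := by exact_mod_cast h10
      exact ⟨n - 1, by omega⟩
    have hfin : D + gs.length ≤ m := by
      rw [List.length_cons] at hdim
      exact arith_pred hdim
    rw [hD] at hfin
    exact ih m (exists_regular_quot m h g hg hreg) hm' hfin

end Pool.Agent.Helper49.NC
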